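import Pool.Agent.Lib.H1M.RV.M113

/-!
# Goldbach graphs: power savings

There is `δ0 > 0` such that for all `0 < a < b < δ0` there is a fixed set `E` of natural numbers, with at most
`x ^ (1 - a)` elements up to `x`, such that every even number outside `E` is rich, and in all large
Goldbach graphs `G_n` and near Goldbach graphs `G(n)` any two rich vertices are at distance at most
`31`. A vertex `u` is rich if it has at least `m ^ (1 - b)` neighbours in the graph with some index
`m ≤ n`, or at least `u ^ (1 - b)` representations as a sum of two primes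
(`Pool.Agent.Lib.H18Q.RichPow`). More precisely there is a core of pairwise distances at most `7`
(`Pool.Agent.Lib.H18Q.CorePow`). Consequently Q1 holds if every large even number has at least
`u ^ (1 - b)` representations as a sum of two primes, and every even `u ≥ 8` is the sum of two different
primes.
-/

namespace Pool.Agent.Results.MP_443e5f_co.PowerRichVertices

open Pool.Agent.Goldbach Pool.Agent.Lib.H18P Pool.Agent.Lib.H18Q

theorem result : ∃ δ0 : ℝ, 0 < δ0 ∧ ∀ a b : ℝ, 0 < a → a < b → b < δ0 →
    ∃ (E : Set ℕ) (n0 x0 : ℕ),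
      (∀ x : ℕ, x0 ≤ x → ((E ∩ Set.Icc 0 x).ncard : ℝ) ≤ (x : ℝ) ^ (1 - a)) ∧
      (∀ u : ℕ, Even u → u ∉ E → n0 ≤ u ∧ (u : ℝ) ^ (1 - b) ≤ reps u) ∧
      (∀ n : ℕ, n0 ≤ n → (∃ K, CorePow goldbachVertices goldbachGraph b n0 n K ∧
          ∀ u : goldbachVertices n, (u : ℕ) = 0 ∨ (∃ p : ℕ, p.Prime ∧ Odd p ∧ (u : ℕ) = 2 * p) →
            ∃ z ∈ K, (goldbachGraph n).edist u z ≤ 2) ∧
        ∃ K, CorePow evenVertices nearGoldbachGraph b n0 n K) ∧
      (∀ n : ℕ, n0 ≤ n →
        (∀ u v : goldbachVertices n, RichPow goldbachVertices goldbachGraph b n0 n u →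
          RichPow goldbachVertices goldbachGraph b n0 n v → (goldbachGraph n).edist u v ≤ 31) ∧
        (∀ u v : evenVertices n, RichPow evenVertices nearGoldbachGraph b n0 n u →
          RichPow evenVertices nearGoldbachGraph b n0 n v → (nearGoldbachGraph n).edist u v ≤ 31)) ∧
      (QuantGoldbachPow b → ∃ C N : ℕ, ∀ n : ℕ, N ≤ n →
        (∀ u v : goldbachVertices n, (goldbachGraph n).edist u v ≤ C) ∧
        (∀ u v : evenVertices n, (nearGoldbachGraph n).edist u v ≤ C)) :=
  rich_pow

end Pool.Agent.Results.MP_443e5f_co.PowerRichVertices
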